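import Pool.Agent.Helper35.HC.StC
import Pool.Agent.Helper80.PI2.M_IA

set_option autoImplicit false

/-!
Module HSI of project HC (MP_925021_gt): invariance of `hsq` under reparametrisation.
-/

namespace Helper36.HC

open Helper35.PI Helper35.PI2 Helper35.HC
open scoped ContDiff Manifold Topology ENNReal BigOperators Matrix
open MeasureTheory Set Filter

theorem hHSI (hI1 : Helper35.PI.StI1) (hFR : Helper35.PI.StFR) (hNR : Helper35.PI.StNR)
    (hSM : Helper35.PI.StSM) : StHSI := by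
  intro n N f h φ x hf hφ hh hLI
  have hf2 : ContDiffAt ℝ 2 f (φ x) := hf.of_le (by decide)
  have hφ2 : ContDiffAt ℝ 2 φ x := hφ.of_le (by decide)
  have hφd : DifferentiableAt ℝ φ x := hφ2.differentiableAt (by norm_num)
  have hhs : ContDiffAt ℝ ∞ h x :=
    (ContDiffAt.comp x (g := f) hf hφ).congr_of_eventuallyEq hh
  set y := φ x with hy
  set J : Matrix (Fin n) (Fin n) ℝ := Matrix.of fun i a => (fderiv ℝ φ x (ee i)) a with hJdef
  have hJ : ∀ i, dv1 h x i = ∑ a, J i a • dv1 f y a := by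
    intro i
    rw [Helper67.PI.first f h φ x hf2 hφ2 hh i, Helper67.PI.fderiv_expand]
    rfl
  obtain ⟨hLIf, hspan, hdet⟩ := Helper67.PI.spans f h x y J hJ hLI
  have hnrm := Helper67.PI.nrm_eq hNR f h x y hLIf hLI hspan
  have hinv := Helper67.PI.gram_inv f h x y J hJ hdet
  obtain ⟨-, f2, -, -, f5, f6, -, -⟩ := hNR n N f y hLIf
  let T : EE N →ₗ[ℝ] EE N :=
    { toFun := nrm f y, map_add' := f5, map_smul' := f6 }
  have hT : ∀ v, T v = nrm f y v := fun v => rfl
  obtain ⟨hLIev, -, -⟩ := Helper80.PI2.smooth1 hSM h x hhs hLI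
  obtain ⟨-, hmf, -⟩ := Helper80.PI2.smooth1 hSM f y hf hLIf
  have hev : ∀ᶠ z in 𝓝 x, mcv h z = mcv f (φ z) := by
    have e1 : ∀ᶠ z in 𝓝 x, h =ᶠ[𝓝 z] (fun y => f (φ y)) := hh.eventuallyEq_nhds
    have e2 : ∀ᶠ z in 𝓝 x, ContDiffAt ℝ 2 f (φ z) :=
      hφ.continuousAt.eventually (hf2.eventually (by decide))
    have e3 : ∀ᶠ z in 𝓝 x, ContDiffAt ℝ 2 φ z := hφ2.eventually (by decide)
    filter_upwards [e1, e2, e3, hLIev] with z h1 h2 h3 h4
    obtain ⟨-, g1, -, -, -⟩ := hI1 n N f h φ z h2 h3 h1 h4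
    exact g1
  have hdm : DifferentiableAt ℝ (mcv f) y := hmf.differentiableAt (by decide)
  have hM : ∀ m, nrm h x (fderiv ℝ (mcv h) x (ee m)) =
      ∑ c, J m c • nrm f y (fderiv ℝ (mcv f) y (ee c)) := by
    intro m
    have h1 : fderiv ℝ (mcv h) x (ee m) = ∑ c, J m c • fderiv ℝ (mcv f) y (ee c) :=
      Helper80.PI2.chain (mcv f) (mcv h) φ x hdm hφd hev m
    rw [hnrm, h1, ← hT, map_sum]
    refine Finset.sum_congr rfl fun c _ => ?_
    rw [map_smul, hT]
  constructor
  · have hX : ∀ i j, (inner ℝ (nrm h x (fderiv ℝ (mcv h) x (ee i)))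
        (nrm h x (fderiv ℝ (mcv h) x (ee j))) : ℝ) = ∑ r, ∑ s, (J i r * J j s) •
          (inner ℝ (nrm f y (fderiv ℝ (mcv f) y (ee r)))
            (nrm f y (fderiv ℝ (mcv f) y (ee s))) : ℝ) := by
      intro i j
      rw [hM, hM, sum_inner]
      refine Finset.sum_congr rfl fun r _ => ?_
      rw [inner_sum]
      refine Finset.sum_congr rfl fun s _ => ?_
      rw [inner_smul_left, inner_smul_right, smul_eq_mul]
      simp only [conj_trivial]
      ring
    have e2 : hsq h x = ∑ i, ∑ j, (gram h x)⁻¹ i j • ∑ r, ∑ s, (J i r * J j s) •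
        (inner ℝ (nrm f y (fderiv ℝ (mcv f) y (ee r)))
          (nrm f y (fderiv ℝ (mcv f) y (ee s))) : ℝ) := by
      unfold hsq
      refine Finset.sum_congr rfl fun i _ => Finset.sum_congr rfl fun j _ => ?_
      rw [hX, smul_eq_mul]
    rw [e2, Helper67.PI.contr, hinv]
    unfold hsq
    simp only [smul_eq_mul]
  · obtain ⟨-, -, P, hP, -⟩ := hFR n N h x hLI
    unfold hsq
    have h1 : ∑ i, ∑ j, (gram h x)⁻¹ i j * (inner ℝ (nrm h x (fderiv ℝ (mcv h) x (ee i)))
        (nrm h x (fderiv ℝ (mcv h) x (ee j))) : ℝ) =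
        ∑ a, ‖∑ i, P i a • nrm h x (fderiv ℝ (mcv h) x (ee i))‖ ^ 2 := by
      have h2 : ∀ i j, (gram h x)⁻¹ i j * (inner ℝ (nrm h x (fderiv ℝ (mcv h) x (ee i)))
          (nrm h x (fderiv ℝ (mcv h) x (ee j))) : ℝ) = ∑ a, P i a * P j a *
          (inner ℝ (nrm h x (fderiv ℝ (mcv h) x (ee i)))
          (nrm h x (fderiv ℝ (mcv h) x (ee j))) : ℝ) := by
        intro i j
        rw [hP, Matrix.mul_apply, Finset.sum_mul]
        rfl
      have h3 : ∀ a, ‖∑ i, P i a • nrm h x (fderiv ℝ (mcv h) x (ee i))‖ ^ 2 =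
          ∑ i, ∑ j, P i a * P j a * (inner ℝ (nrm h x (fderiv ℝ (mcv h) x (ee i)))
          (nrm h x (fderiv ℝ (mcv h) x (ee j))) : ℝ) := by
        intro a
        rw [← real_inner_self_eq_norm_sq, sum_inner]
        refine Finset.sum_congr rfl fun i _ => ?_
        rw [inner_sum]
        refine Finset.sum_congr rfl fun j _ => ?_
        rw [inner_smul_left, inner_smul_right]
        simp only [conj_trivial]
        ring
      rw [Finset.sum_congr rfl fun a _ => h3 a,
        Finset.sum_congr rfl fun i _ => Finset.sum_congr rfl fun j _ => h2 i j,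
        Finset.sum_congr rfl fun i _ => Finset.sum_comm]
      exact Finset.sum_comm
    rw [h1]
    exact Finset.sum_nonneg fun a _ => sq_nonneg _

end Helper36.HC
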