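import Pool.Agent.Helper35.HC.StA

set_option autoImplicit false

/-!
Module SQG of project HC (MP_925021_gt): splitting off the trace.
-/

namespace Helper36.HC

open Helper35.HC Helper35.HSF Helper35.MS Helper35.PI Helper35.PI2 Helper32.CL

section

variable {n N : ℕ}

/-- coordinates -/
def cm (A : Fin n → Fin n → EE N) (α : Fin N) : Matrix (Fin n) (Fin n) ℝ :=
  Matrix.of fun i j => A i j α

/-- second and third sum -/
noncomputable def S23 (A : Fin n → Fin n → EE N) : ℝ :=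
  ∑ i, ∑ j, ∑ k, ∑ l, ((inner ℝ (A i j) (A j k) : ℝ) * inner ℝ (A k l) (A l i)
      - (inner ℝ (A i j) (A k l) : ℝ) * inner ℝ (A j k) (A l i))

/-- first sum -/
noncomputable def S1 (A : Fin n → Fin n → EE N) : ℝ :=
  ∑ i, ∑ j, ∑ k, ∑ l, (inner ℝ (A i j) (A k l) : ℝ) ^ 2

theorem sq_eq (A : Fin n → Fin n → EE N) : Sq A = S1 A + 2 * S23 A := by
  unfold Sq S1 S23
  simp only [Finset.mul_sum, ← Finset.sum_add_distrib]

theorem inner_coord (x y : EE N) : (inner ℝ x y : ℝ) = ∑ α, x α * y α := by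
  rw [PiLp.inner_apply]
  refine Finset.sum_congr rfl fun α _ => ?_
  simp [mul_comm]

theorem tr4 (W X Y Z : Matrix (Fin n) (Fin n) ℝ) : Matrix.trace (W * X * Y * Z) =
    ∑ i, ∑ j, ∑ k, ∑ l, W i j * X j k * Y k l * Z l i := by
  simp only [Matrix.trace, Matrix.diag_apply, Matrix.mul_apply, Finset.sum_mul]
  refine Finset.sum_congr rfl fun i _ => ?_
  rw [Finset.sum_comm]
  have h : ∀ k : Fin n, (∑ l, ∑ j, W i j * X j k * Y k l * Z l i) =
      ∑ j, ∑ l, W i j * X j k * Y k l * Z l i := fun k => Finset.sum_comm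
  simp only [h]
  rw [Finset.sum_comm]

theorem swap42 (f : Fin n → Fin n → Fin n → Fin n → Fin N → Fin N → ℝ) :
    ∑ i, ∑ j, ∑ k, ∑ l, ∑ α, ∑ β, f i j k l α β =
      ∑ α, ∑ β, ∑ i, ∑ j, ∑ k, ∑ l, f i j k l α β := by
  have h1 : ∀ g : Fin n → Fin N → ℝ, ∑ i, ∑ α, g i α = ∑ α, ∑ i, g i α :=
    fun g => Finset.sum_comm
  simp only [h1]

theorem s23_eq (A : Fin n → Fin n → EE N) : S23 A = ∑ α, ∑ β,
    (Matrix.trace (cm A α * cm A α * cm A β * cm A β) -
      Matrix.trace (cm A α * cm A β * cm A α * cm A β)) := by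
  have h1 : S23 A = ∑ i, ∑ j, ∑ k, ∑ l, ∑ α, ∑ β,
      (cm A α i j * cm A α j k * cm A β k l * cm A β l i -
        cm A α i j * cm A β j k * cm A α k l * cm A β l i) := by
    unfold S23
    refine Finset.sum_congr rfl fun i _ => Finset.sum_congr rfl fun j _ =>
      Finset.sum_congr rfl fun k _ => Finset.sum_congr rfl fun l _ => ?_
    simp only [inner_coord, Finset.sum_mul_sum, ← Finset.sum_sub_distrib]
    refine Finset.sum_congr rfl fun α _ => Finset.sum_congr rfl fun β _ => ?_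
    simp only [cm, Matrix.of_apply]
    ring
  rw [h1, swap42]
  refine Finset.sum_congr rfl fun α _ => Finset.sum_congr rfl fun β _ => ?_
  rw [tr4, tr4]
  simp only [← Finset.sum_sub_distrib]

theorem tr_shift (a b : Matrix (Fin n) (Fin n) ℝ) (p q : ℝ) :
    Matrix.trace ((a + p • 1) * (a + p • 1) * (b + q • 1) * (b + q • 1)) -
      Matrix.trace ((a + p • 1) * (b + q • 1) * (a + p • 1) * (b + q • 1)) =
    Matrix.trace (a * a * b * b) - Matrix.trace (a * b * a * b) := by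
  have h1 : (a + p • (1 : Matrix (Fin n) (Fin n) ℝ)) * (a + p • 1) * (b + q • 1) * (b + q • 1) -
      (a + p • 1) * (b + q • 1) * (a + p • 1) * (b + q • 1) =
      (a * a * b * b - a * b * a * b) + p • (a * b * b - b * a * b) + q • (a * a * b - a * b * a) +
        (p * q) • (a * b - b * a) := by
    simp only [mul_add, add_mul, smul_mul_assoc, mul_smul_comm, mul_one, one_mul, smul_add,
      smul_sub, smul_smul]
    module
  have h2 : Matrix.trace (b * a * b) = Matrix.trace (a * b * b) := by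
    rw [mul_assoc, Matrix.trace_mul_comm]
  have h3 : Matrix.trace (a * b * a) = Matrix.trace (a * a * b) := by
    rw [mul_assoc, Matrix.trace_mul_comm, mul_assoc, Matrix.trace_mul_comm]
  rw [← Matrix.trace_sub, h1]
  simp only [Matrix.trace_add, Matrix.trace_sub, Matrix.trace_smul, smul_eq_mul, h2, h3,
    Matrix.trace_mul_comm b a]
  ring

/-- adding `δ_ij m` -/
noncomputable def ad (a : Fin n → Fin n → EE N) (m : EE N) : Fin n → Fin n → EE N :=
  fun i j => a i j + (if i = j then (1 : ℝ) else 0) • m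

theorem s23_shift (a : Fin n → Fin n → EE N) (m : EE N) : S23 (ad a m) = S23 a := by
  have h : ∀ α, cm (ad a m) α = cm a α + m α • 1 := by
    intro α
    ext i j
    simp only [cm, ad, Matrix.of_apply, Matrix.add_apply, Matrix.smul_apply, Matrix.one_apply,
      smul_eq_mul, PiLp.add_apply, PiLp.smul_apply]
    ring
  rw [s23_eq, s23_eq]
  refine Finset.sum_congr rfl fun α _ => Finset.sum_congr rfl fun β _ => ?_
  rw [h α, h β, tr_shift]

theorem s1_half (w m : EE N) (a : Fin n → Fin n → EE N) (hz : ∑ i, a i i = 0) :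
    ∑ k, ∑ l, (inner ℝ w (ad a m k l) : ℝ) ^ 2 =
      ∑ k, ∑ l, (inner ℝ w (a k l) : ℝ) ^ 2 + n * (inner ℝ w m : ℝ) ^ 2 := by
  have h1 : ∀ k l : Fin n, (inner ℝ w (ad a m k l) : ℝ) ^ 2 = (inner ℝ w (a k l) : ℝ) ^ 2 +
      if k = l then 2 * (inner ℝ w m : ℝ) * inner ℝ w (a k l) + (inner ℝ w m : ℝ) ^ 2 else 0 := by
    intro k l
    unfold ad
    rw [inner_add_right, inner_smul_right]
    split_ifs
    · ring
    · ring
  simp only [h1, Finset.sum_add_distrib, Finset.sum_ite_eq, Finset.mem_univ, if_true]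
  rw [← Finset.mul_sum, ← inner_sum, hz, inner_zero_right, mul_zero, zero_add, Finset.sum_const,
    Finset.card_univ, Fintype.card_fin, nsmul_eq_mul]

theorem swap22 (f : Fin n → Fin n → Fin n → Fin n → ℝ) :
    ∑ i, ∑ j, ∑ k, ∑ l, f i j k l = ∑ k, ∑ l, ∑ i, ∑ j, f i j k l := by
  have e1 : ∀ i, (∑ j, ∑ k, ∑ l, f i j k l) = ∑ k, ∑ l, ∑ j, f i j k l := by
    intro i
    rw [Finset.sum_comm]
    exact Finset.sum_congr rfl fun k _ => Finset.sum_comm
  rw [Finset.sum_congr rfl fun i _ => e1 i, Finset.sum_comm]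
  exact Finset.sum_congr rfl fun k _ => Finset.sum_comm

theorem s1_shift (a : Fin n → Fin n → EE N) (m : EE N) (hz : ∑ i, a i i = 0) :
    S1 (ad a m) = S1 a + 2 * n * (∑ i, ∑ j, (inner ℝ (a i j) m : ℝ) ^ 2) + n ^ 2 * ‖m‖ ^ 4 := by
  have h1 : S1 (ad a m) = (∑ i, ∑ j, ∑ k, ∑ l, (inner ℝ (ad a m i j) (a k l) : ℝ) ^ 2) +
      n * ∑ i, ∑ j, (inner ℝ (ad a m i j) m : ℝ) ^ 2 := by
    unfold S1
    rw [Finset.mul_sum, ← Finset.sum_add_distrib]
    refine Finset.sum_congr rfl fun i _ => ?_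
    rw [Finset.mul_sum, ← Finset.sum_add_distrib]
    refine Finset.sum_congr rfl fun j _ => ?_
    exact s1_half _ m a hz
  have hc : ∀ w : EE N, ∑ i, ∑ j, (inner ℝ (ad a m i j) w : ℝ) ^ 2 =
      ∑ i, ∑ j, (inner ℝ (a i j) w : ℝ) ^ 2 + n * (inner ℝ m w : ℝ) ^ 2 := by
    intro w
    have := s1_half w m a hz
    simp only [real_inner_comm w] at this ⊢
    simpa only [real_inner_comm] using this
  have h2 : (∑ i, ∑ j, ∑ k, ∑ l, (inner ℝ (ad a m i j) (a k l) : ℝ) ^ 2) =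
      S1 a + n * ∑ i, ∑ j, (inner ℝ (a i j) m : ℝ) ^ 2 := by
    rw [swap22]
    have h3 : ∀ k l, ∑ i, ∑ j, (inner ℝ (ad a m i j) (a k l) : ℝ) ^ 2 =
      ∑ i, ∑ j, (inner ℝ (a i j) (a k l) : ℝ) ^ 2 + n * (inner ℝ (a k l) m : ℝ) ^ 2 := by
      intro k l
      rw [hc, real_inner_comm m]
    simp only [h3, Finset.sum_add_distrib, ← Finset.mul_sum]
    unfold S1
    rw [swap22]
  rw [h1, h2, hc, real_inner_self_eq_norm_sq]
  ring

theorem sq_bound (a : Fin n → Fin n → EE N) : |Sq a| ≤ 5 * XX a ^ 2 := by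
  have h1 : |Sq a| ≤ ∑ i, ∑ j, ∑ k, ∑ l, (3 * (‖a i j‖ ^ 2 * ‖a k l‖ ^ 2) +
      2 * (‖a j k‖ ^ 2 * ‖a l i‖ ^ 2)) := by
    unfold Sq
    refine (Finset.abs_sum_le_sum_abs _ _).trans (Finset.sum_le_sum fun i _ => ?_)
    refine (Finset.abs_sum_le_sum_abs _ _).trans (Finset.sum_le_sum fun j _ => ?_)
    refine (Finset.abs_sum_le_sum_abs _ _).trans (Finset.sum_le_sum fun k _ => ?_)
    refine (Finset.abs_sum_le_sum_abs _ _).trans (Finset.sum_le_sum fun l _ => ?_)
    have i1 := abs_real_inner_le_norm (a i j) (a k l)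
    have i2 := abs_real_inner_le_norm (a j k) (a l i)
    have i3 := abs_real_inner_le_norm (a i j) (a j k)
    have i4 := abs_real_inner_le_norm (a k l) (a l i)
    set p : ℝ := inner ℝ (a i j) (a k l)
    set z : ℝ := inner ℝ (a j k) (a l i)
    set u : ℝ := inner ℝ (a i j) (a j k)
    set w : ℝ := inner ℝ (a k l) (a l i)
    have n1 := norm_nonneg (a i j)
    have n2 := norm_nonneg (a k l)
    have n3 := norm_nonneg (a j k)
    have n4 := norm_nonneg (a l i)
    have e1 : |p * z| ≤ ‖a i j‖ * ‖a k l‖ * (‖a j k‖ * ‖a l i‖) := by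
      rw [abs_mul]
      exact mul_le_mul i1 i2 (abs_nonneg _) (by positivity)
    have e2 : |u * w| ≤ ‖a i j‖ * ‖a k l‖ * (‖a j k‖ * ‖a l i‖) := by
      rw [abs_mul]
      calc |u| * |w| ≤ (‖a i j‖ * ‖a j k‖) * (‖a k l‖ * ‖a l i‖) :=
            mul_le_mul i3 i4 (abs_nonneg _) (by positivity)
        _ = _ := by ring
    have e3 : p ^ 2 ≤ ‖a i j‖ ^ 2 * ‖a k l‖ ^ 2 := by
      rw [← mul_pow, ← sq_abs p]
      exact pow_le_pow_left₀ (abs_nonneg _) i1 2
    have e4 := sq_nonneg (‖a i j‖ * ‖a k l‖ - ‖a j k‖ * ‖a l i‖)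
    have e5 := abs_le.1 e1
    have e6 := abs_le.1 e2
    have e7 := sq_nonneg p
    rw [abs_le]
    constructor
    · nlinarith [e4, e5.1, e5.2, e6.1, e6.2, e3, e7]
    · nlinarith [e4, e5.1, e5.2, e6.1, e6.2, e3, e7]
  refine h1.trans (le_of_eq ?_)
  simp only [Finset.sum_add_distrib, ← Finset.mul_sum]
  have h2 : ∑ i, ∑ j, ∑ k, ∑ l, ‖a i j‖ ^ 2 * ‖a k l‖ ^ 2 = XX a ^ 2 := by
    simp only [← Finset.mul_sum, ← Finset.sum_mul]
    unfold XX
    ring
  have h3 : ∑ i, ∑ j, ∑ k, ∑ l, ‖a j k‖ ^ 2 * ‖a l i‖ ^ 2 = XX a ^ 2 := by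
    simp only [← Finset.mul_sum, ← Finset.sum_mul]
    rw [Finset.sum_comm (f := fun i l => ‖a l i‖ ^ 2)]
    unfold XX
    ring
  simp only [← Finset.mul_sum] at h2 h3
  rw [h2, h3]
  ring

theorem xx_shift (a : Fin n → Fin n → EE N) (m : EE N) (hz : ∑ i, a i i = 0) :
    XX (ad a m) = XX a + n * ‖m‖ ^ 2 := by
  have h1 : ∀ k l : Fin n, ‖ad a m k l‖ ^ 2 = ‖a k l‖ ^ 2 +
      if k = l then 2 * (inner ℝ (a k l) m : ℝ) + ‖m‖ ^ 2 else 0 := by
    intro k l
    unfold ad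
    rw [norm_add_sq_real, inner_smul_right, norm_smul]
    split_ifs
    · norm_num
      ring
    · norm_num
  unfold XX
  simp only [h1, Finset.sum_add_distrib, Finset.sum_ite_eq, Finset.mem_univ, if_true]
  rw [← Finset.mul_sum, ← sum_inner, hz, inner_zero_left, mul_zero, zero_add, Finset.sum_const,
    Finset.card_univ, Fintype.card_fin, nsmul_eq_mul]

theorem zz_shift (a : Fin n → Fin n → EE N) (m : EE N) (hz : ∑ i, a i i = 0) :
    ∑ i, ∑ j, (inner ℝ (ad a m i j) m : ℝ) ^ 2 =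
      ∑ i, ∑ j, (inner ℝ (a i j) m : ℝ) ^ 2 + n * ‖m‖ ^ 4 := by
  have := s1_half m m a hz
  simp only [real_inner_comm m] at this ⊢
  rw [this, real_inner_self_eq_norm_sq]
  ring

end

theorem hSQG : StSQG := by
  intro n N hn A hA m a hm ha v hv
  have hn0 : (0 : ℝ) < n := by exact_mod_cast hn
  have hH : Hv A = (n : ℝ) • m := by
    rw [hm, smul_smul, mul_one_div_cancel hn0.ne', one_smul]
  have hA' : A = ad a m := by
    funext i j
    rw [ha]
    unfold ad
    simp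
  have hz : ∑ i, a i i = 0 := by
    have h1 : ∑ i, a i i = Hv A - (n : ℝ) • m := by
      rw [ha]
      unfold Hv
      simp only [if_true, one_smul, Finset.sum_sub_distrib, Finset.sum_const, Finset.card_univ,
        Fintype.card_fin]
      rw [← Nat.cast_smul_eq_nsmul ℝ]
    rw [h1, hH, sub_self]
  have hsym : SymV a := by
    intro i j
    rw [ha]
    show A i j - (if i = j then (1 : ℝ) else 0) • m = A j i - (if j = i then (1 : ℝ) else 0) • m
    rw [hA i j]
    by_cases hij : i = j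
    · rw [if_pos hij, if_pos hij.symm]
    · rw [if_neg hij, if_neg (fun h => hij h.symm)]
  have hY : YY A = n ^ 2 * ‖m‖ ^ 2 := by
    unfold YY
    rw [hH, norm_smul, mul_pow, Real.norm_eq_abs, sq_abs]
  have hX : XX A = XX a + n * ‖m‖ ^ 2 := by
    rw [hA']
    exact xx_shift a m hz
  have hth : XX a = thA2 A := by
    unfold thA2
    rw [hX, hY]
    field_simp
    ring
  have hS : Sq A = Sq a + 2 * n * v + n ^ 2 * ‖m‖ ^ 4 := by
    rw [hA', sq_eq, sq_eq, s23_shift, s1_shift a m hz, hv]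
    ring
  have hZ : ZZ A = n ^ 2 * (v + n * ‖m‖ ^ 4) := by
    unfold ZZ zz
    rw [hH, hv, ← zz_shift a m hz, ← hA']
    simp only [inner_smul_right, mul_pow, ← Finset.mul_sum]
  have hb := sq_bound a
  have hXa : 0 ≤ XX a := Finset.sum_nonneg fun i _ => Finset.sum_nonneg fun j _ => sq_nonneg _
  have hv0 : 0 ≤ v := by
    rw [hv]
    exact Finset.sum_nonneg fun i _ => Finset.sum_nonneg fun j _ => sq_nonneg _
  have hcs : ∀ (B : Fin n → Fin n → EE N) (w : EE N),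
      ∑ i, ∑ j, (inner ℝ (B i j) w : ℝ) ^ 2 ≤ XX B * ‖w‖ ^ 2 := by
    intro B w
    unfold XX
    rw [Finset.sum_mul]
    refine Finset.sum_le_sum fun i _ => ?_
    rw [Finset.sum_mul]
    refine Finset.sum_le_sum fun j _ => ?_
    have h1 := abs_real_inner_le_norm (B i j) w
    rw [← mul_pow, ← sq_abs]
    exact pow_le_pow_left₀ (abs_nonneg _) h1 2
  have hvle : v ≤ XX a * ‖m‖ ^ 2 := by
    rw [hv]
    exact hcs a m
  refine ⟨hz, hsym, hY, hth, hS, hZ, hb, ?_, ?_, ?_, ?_, ?_⟩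
  · rw [← hth, hS, hZ, hX]
    have h1 : (n : ℝ) ^ 2 * (v + n * ‖m‖ ^ 4) / n = n * (v + n * ‖m‖ ^ 4) := by
      field_simp
    rw [h1]
    have h2 := (abs_le.1 hb).2
    have h3 : (n : ℝ) * v ≤ n * (XX a * ‖m‖ ^ 2) := mul_le_mul_of_nonneg_left hvle hn0.le
    have h4 : 0 ≤ (n : ℝ) * (XX a * ‖m‖ ^ 2) := by positivity
    nlinarith
  · rw [← hth]
    exact hXa
  · exact Finset.sum_nonneg fun i _ => Finset.sum_nonneg fun j _ => sq_nonneg _
  · exact hcs A (Hv A)
  · rw [hY, hZ]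
    have h1 : ((n : ℝ) ^ 2 * ‖m‖ ^ 2) ^ 2 / n = n ^ 2 * (n * ‖m‖ ^ 4) := by
      field_simp
    rw [h1]
    have h2 : 0 ≤ (n : ℝ) ^ 2 * v := by positivity
    nlinarith

end Helper36.HC
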